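import Mathlib

/-!
# Positive functionals on a compact space and ultrafilter limits
-/

set_option autoImplicit false
open Topology Filter MeasureTheory
open scoped ENNReal

namespace Pool.Agent.W348.BE

/-- Riesz representation for a compact Hausdorff space -/
theorem riesz {X : Type*} [TopologicalSpace X] [CompactSpace X] [T2Space X] [MeasurableSpace X]
    [BorelSpace X] (L : C(X, ℝ) → ℝ) (hadd : ∀ f g, L (f + g) = L f + L g)
    (hsmul : ∀ (c : ℝ) f, L (c • f) = c * L f)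
    (hpos : ∀ f : C(X, ℝ), (∀ x, 0 ≤ f x) → 0 ≤ L f) (hone : L 1 = 1) :
    ∃ ρ : Measure X, IsProbabilityMeasure ρ ∧ ∀ φ : C(X, ℝ), ∫ x, φ x ∂ρ = L φ := by
  let Λ₀ : CompactlySupportedContinuousMap X ℝ →ₗ[ℝ] ℝ :=
    { toFun := fun f => L (f : C(X, ℝ))
      map_add' := fun f g => hadd (f : C(X, ℝ)) (g : C(X, ℝ))
      map_smul' := fun c f => hsmul c (f : C(X, ℝ)) }
  let Λ : CompactlySupportedContinuousMap X ℝ →ₚ[ℝ] ℝ :=
    PositiveLinearMap.mk₀ Λ₀ (fun f hf => hpos (f : C(X, ℝ)) (fun x => hf x))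
  have key : ∀ φ : C(X, ℝ), ∫ x, φ x ∂(RealRMK.rieszMeasure Λ) = L φ := by
    intro φ
    have h := RealRMK.integral_rieszMeasure Λ (CompactlySupportedContinuousMap.continuousMapEquiv φ)
    exact h
  refine ⟨RealRMK.rieszMeasure Λ, ?_, key⟩
  have h1 := key 1
  rw [hone] at h1
  simp only [ContinuousMap.one_apply, integral_const, smul_eq_mul, mul_one] at h1
  constructor
  have h2 : (RealRMK.rieszMeasure Λ) Set.univ ≠ ⊤ := by
    intro h
    rw [measureReal_def, h] at h1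
    simp at h1
  rw [← ENNReal.ofReal_toReal h2]
  rw [measureReal_def] at h1
  rw [h1, ENNReal.ofReal_one]

theorem ulim (g : Ultrafilter ℕ) (u : ℕ → ℝ) (B : ℝ) (h : ∀ n, |u n| ≤ B) :
    ∃ l, Tendsto u g (𝓝 l) := by
  obtain ⟨l, _, hl⟩ := (isCompact_Icc (a := -B) (b := B)).ultrafilter_le_nhds (g.map u)
    (by
      rw [Ultrafilter.coe_map, le_principal_iff, mem_map]
      exact Filter.univ_mem' fun n => Set.mem_Icc.2 (abs_le.1 (h n)))
  exact ⟨l, hl⟩

/-- limits of positive normalised functionals -/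
theorem ulim_measure {X : Type*} [TopologicalSpace X] [CompactSpace X] [T2Space X]
    [MeasurableSpace X] [BorelSpace X] (g : Ultrafilter ℕ) (L : ℕ → C(X, ℝ) → ℝ)
    (hadd : ∀ n f g, L n (f + g) = L n f + L n g)
    (hsmul : ∀ n (c : ℝ) f, L n (c • f) = c * L n f)
    (hpos : ∀ n, ∀ f : C(X, ℝ), (∀ x, 0 ≤ f x) → 0 ≤ L n f) (hone : ∀ n, L n 1 = 1) :
    ∃ ρ : Measure X, IsProbabilityMeasure ρ ∧ ∀ φ : C(X, ℝ),
      Tendsto (fun n => L n φ) g (𝓝 (∫ x, φ x ∂ρ)) := by
  have hmono : ∀ n (f g : C(X, ℝ)), (∀ x, f x ≤ g x) → L n f ≤ L n g := by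
    intro n f g hfg
    have h1 : 0 ≤ L n (g - f) := hpos n _ fun x => by
      simpa using hfg x
    have h2 : L n g = L n f + L n (g - f) := by
      rw [← hadd, add_sub_cancel]
    linarith
  have hbd : ∀ (f : C(X, ℝ)) n, |L n f| ≤ ‖f‖ := by
    intro f n
    rw [abs_le]
    have h1 : L n ((-‖f‖) • (1 : C(X, ℝ))) = -‖f‖ := by rw [hsmul, hone, mul_one]
    have h2 : L n ((‖f‖) • (1 : C(X, ℝ))) = ‖f‖ := by rw [hsmul, hone, mul_one]
    constructor
    · rw [← h1]
      refine hmono n _ _ fun x => ?_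
      have := f.norm_coe_le_norm x
      rw [Real.norm_eq_abs, abs_le] at this
      simpa using this.1
    · rw [← h2]
      refine hmono n _ _ fun x => ?_
      have := f.norm_coe_le_norm x
      rw [Real.norm_eq_abs, abs_le] at this
      simpa using this.2
  choose Λ hΛ using fun φ : C(X, ℝ) => ulim g (fun n => L n φ) ‖φ‖ (hbd φ)
  obtain ⟨ρ, hρ, hint⟩ := riesz Λ
    (fun f h => by
      refine tendsto_nhds_unique (hΛ (f + h)) (((hΛ f).add (hΛ h)).congr fun n => ?_)
      exact (hadd n f h).symm)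
    (fun c f => by
      refine tendsto_nhds_unique (hΛ (c • f)) (((hΛ f).const_mul c).congr fun n => ?_)
      exact (hsmul n c f).symm)
    (fun f hf => ge_of_tendsto (hΛ f) (Eventually.of_forall fun n => hpos n f hf))
    (tendsto_nhds_unique (hΛ 1) (tendsto_const_nhds.congr fun n => (hone n).symm))
  refine ⟨ρ, hρ, fun φ => ?_⟩
  rw [hint φ]
  exact hΛ φ

end Pool.Agent.W348.BE
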