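import Pool.Agent.W293.BK.Nwlim

/-!
# A probability measure is determined by the integrals of the kernels
-/

set_option autoImplicit false
open Polynomial Topology Filter MeasureTheory
open scoped ENNReal

namespace Pool.Agent.W348.BE

open Pool.Agent.W95.BK
open Pool.Agent.W293.BK (ker_bd mem_ball_coe infty_not_mem_ball)

universe u

section
variable {K : Type u} [NontriviallyNormedField K] [IsAlgClosed K]

theorem ker_int (hKC : S_KERC.{u}) (hNB : S_NB.{u}) (ρ : Measure (P1B K))
    [IsProbabilityMeasure ρ] (a : K) (s t : ℝ) (hs : 0 < s) (hst : s < t) :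
    Real.log (t / s) * ρ.real (ball a s) ≤ ∫ x, ker a s t x ∂ρ ∧
    ∫ x, ker a s t x ∂ρ ≤ Real.log (t / s) * ρ.real (ball a t) := by
  have ht : 0 < t := hs.trans hst
  obtain ⟨_, _, hb, _⟩ := hNB K
  have hbm : ∀ (t : ℝ), MeasurableSet (ball a t) := fun t => (hb a t).measurableSet
  constructor
  · have hint : Integrable (fun x => ker a s t x) ρ := by
      have hc := hKC K a s t hs ht
      refine Integrable.mono' (integrable_const (Real.log (t / s))) hc.aestronglyMeasurable ?_
      refine ae_of_all _ fun x => ?_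
      obtain ⟨h1, h2, _⟩ := ker_bd a s t hs hst x
      rw [Real.norm_eq_abs, abs_of_nonneg h1]
      refine h2.trans ?_
      have hl0 : 0 ≤ Real.log (t / s) := (Real.log_pos (by rwa [one_lt_div hs])).le
      exact Set.indicator_le_self' (fun _ _ => hl0) x
    have h1 : ∫ x, Set.indicator (ball a s) (fun _ => Real.log (t / s)) x ∂ρ ≤
        ∫ x, ker a s t x ∂ρ := by
      refine integral_mono ((integrable_const _).indicator (hbm s)) hint ?_
      exact fun x => (ker_bd a s t hs hst x).2.2
    rwa [integral_indicator_const _ (hbm s), smul_eq_mul, mul_comm] at h1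
  · have h1 : ∫ x, ker a s t x ∂ρ ≤
        ∫ x, Set.indicator (ball a t) (fun _ => Real.log (t / s)) x ∂ρ := by
      refine integral_mono_of_nonneg ?_ ?_ ?_
      · exact ae_of_all _ fun x => (ker_bd a s t hs hst x).1
      · exact (integrable_const _).indicator (hbm t)
      · exact ae_of_all _ fun x => (ker_bd a s t hs hst x).2.1
    rwa [integral_indicator_const _ (hbm t), smul_eq_mul, mul_comm] at h1

theorem ball_le (hKC : S_KERC.{u}) (hNB : S_NB.{u}) (ρ ρ' : Measure (P1B K))
    [IsProbabilityMeasure ρ] [IsProbabilityMeasure ρ']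
    (h : ∀ (a : K) (s t : ℝ), 0 < s → 0 < t → ∫ x, ker a s t x ∂ρ = ∫ x, ker a s t x ∂ρ')
    (a : K) (t : ℝ) (ht : 0 < t) : ρ.real (ball a t) ≤ ρ'.real (ball a t) := by
  obtain ⟨_, _, hb, _⟩ := hNB K
  have h1 : ∀ s, 0 < s → s < t → ρ.real (ball a s) ≤ ρ'.real (ball a t) := by
    intro s hs hst
    have e1 := (ker_int hKC hNB ρ a s t hs hst).1
    have e2 := (ker_int hKC hNB ρ' a s t hs hst).2
    rw [← h a s t hs ht] at e2
    have hl0 : 0 < Real.log (t / s) := Real.log_pos (by rwa [one_lt_div hs])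
    exact le_of_mul_le_mul_left (e1.trans e2) hl0
  set S : ℕ → Set (P1B K) := fun k => ball a (t * (1 - 1 / ((k : ℝ) + 2))) with hS
  have hk : ∀ k : ℕ, 0 < 1 / ((k : ℝ) + 2) ∧ 1 / ((k : ℝ) + 2) < 1 := by
    intro k
    have hk0 : (0 : ℝ) ≤ k := Nat.cast_nonneg k
    refine ⟨by positivity, ?_⟩
    rw [div_lt_one (by positivity)]
    linarith
  have hmono : Monotone S := by
    intro k l hkl x hx
    obtain ⟨y, hy, hy2⟩ := hx
    refine ⟨y, hy, lt_of_lt_of_le hy2 ?_⟩
    have hkl' : (k : ℝ) ≤ l := by exact_mod_cast hkl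
    have hk0 : (0 : ℝ) ≤ k := Nat.cast_nonneg k
    gcongr
  have hU : ⋃ k, S k = ball a t := by
    ext x
    rw [Set.mem_iUnion]
    constructor
    · rintro ⟨k, y, hy, hy2⟩
      refine ⟨y, hy, hy2.trans_le ?_⟩
      have := (hk k).1
      nlinarith
    · rintro ⟨y, hy, hy2⟩
      have hlim : Tendsto (fun k : ℕ => t * (1 - 1 / ((k : ℝ) + 2))) atTop (𝓝 (t * (1 - 0))) := by
        refine Tendsto.const_mul _ (tendsto_const_nhds.sub ?_)
        have h3 : Tendsto (fun k : ℕ => (k : ℝ) + 2) atTop atTop :=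
          tendsto_atTop_add_const_right _ _ tendsto_natCast_atTop_atTop
        refine h3.inv_tendsto_atTop.congr fun k => ?_
        rw [Pi.inv_apply, one_div]
      rw [sub_zero, mul_one] at hlim
      obtain ⟨k, hk'⟩ := (hlim.eventually (lt_mem_nhds hy2)).exists
      exact ⟨k, y, hy, hk'⟩
  have hlim2 : Tendsto (fun k => ρ.real (S k)) atTop (𝓝 (ρ.real (ball a t))) := by
    have h3 := tendsto_measure_iUnion_atTop (μ := ρ) hmono
    rw [hU] at h3
    exact (ENNReal.tendsto_toReal (measure_ne_top ρ _)).comp h3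
  refine le_of_tendsto hlim2 (Eventually.of_forall fun k => ?_)
  refine h1 _ ?_ ?_
  · have := (hk k).2
    have h4 : 0 < 1 - 1 / ((k : ℝ) + 2) := by linarith
    positivity
  · have := (hk k).1
    nlinarith

open Classical in
theorem uniq [IsUltrametricDist K] (hKC : S_KERC.{u}) (hNB : S_NB.{u}) (hTL : S_TL.{u})
    (hREP : S_REP.{u}) (ρ ρ' : Measure (P1B K))
    [IsProbabilityMeasure ρ] [IsProbabilityMeasure ρ']
    (h : ∀ (a : K) (s t : ℝ), 0 < s → 0 < t → ∫ x, ker a s t x ∂ρ = ∫ x, ker a s t x ∂ρ')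
    (φ : C(P1B K, ℝ)) : ∫ x, φ x ∂ρ = ∫ x, φ x ∂ρ' := by
  obtain ⟨_, _, hb, _⟩ := hNB K
  have hbm : ∀ (a : K) (r : ℝ), MeasurableSet (ball a r) := fun a r => (hb a r).measurableSet
  have hball : ∀ (a : K) (t : ℝ), 0 < t → ρ.real (ball a t) = ρ'.real (ball a t) := by
    intro a t ht
    exact le_antisymm (ball_le hKC hNB ρ ρ' h a t ht)
      (ball_le hKC hNB ρ' ρ (fun a s t hs ht => (h a s t hs ht).symm) a t ht)
  have key : ∀ ε : ℝ, 0 < ε → |∫ x, φ x ∂ρ - ∫ x, φ x ∂ρ'| ≤ 2 * ε := by
    intro ε hε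
    obtain ⟨F, f1, f2, f3⟩ := hTL K (fun _ _ => True)
      (fun a s t hs hst => ⟨(s + t) / 2, by linarith, by linarith, trivial⟩) φ ε hε
    have fpos : ∀ p ∈ F, 0 < p.2 := fun p hp => (f1 p hp).1
    set pat : P1B K → Finset (K × ℝ) := fun x => F.filter fun p => x ∈ ball p.1 p.2 with hpat
    have hex : ∀ S : Finset (K × ℝ), ∃ z : P1B K, (∃ x, pat x = S) → pat z = S := by
      intro S
      by_cases h : ∃ x, pat x = S
      · obtain ⟨x, hx⟩ := h
        exact ⟨x, fun _ => hx⟩
      · exact ⟨OnePoint.infty, fun h' => absurd h' h⟩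
    choose rep hrep using hex
    have hrep' : ∀ x, pat (rep (pat x)) = pat x := fun x => hrep (pat x) ⟨x, rfl⟩
    have patiff : ∀ x y, pat x = pat y ↔ ∀ p ∈ F, x ∈ ball p.1 p.2 ↔ y ∈ ball p.1 p.2 := by
      intro x y
      rw [hpat]
      simp only [Finset.ext_iff, Finset.mem_filter]
      constructor
      · intro h p hp
        have := h p
        tauto
      · intro h p
        have := h p
        tauto
    set v : P1B K → ℝ := fun x => φ (rep (pat x)) with hv
    have hclose : ∀ x, |φ x - v x| ≤ ε := by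
      intro x
      exact f3 x _ ((patiff _ _).mp (hrep' x).symm)
    obtain ⟨c₀, c, hc⟩ := hREP K F fpos f2 v (by
      intro x y hxy
      rw [hv]
      simp only
      rw [(patiff x y).mpr hxy])
    have hint1 : ∀ (μ : Measure (P1B K)) [IsProbabilityMeasure μ] (p : K × ℝ),
        Integrable (fun x : P1B K => if x ∈ ball p.1 p.2 then c p else 0) μ := by
      intro μ _ p
      have : (fun x : P1B K => if x ∈ ball p.1 p.2 then c p else 0) =
          Set.indicator (ball p.1 p.2) (fun _ => c p) := by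
        funext x
        rw [Set.indicator_apply]
      rw [this]
      exact (integrable_const (c p)).indicator (hbm _ _)
    have hvI : ∀ (μ : Measure (P1B K)) [IsProbabilityMeasure μ], Integrable v μ := by
      intro μ _
      have e : v = fun x => c₀ + ∑ p ∈ F, if x ∈ ball p.1 p.2 then c p else 0 := funext hc
      rw [e]
      exact (integrable_const c₀).add (integrable_finsetSum _ fun p _ => hint1 μ p)
    have hvint : ∀ (μ : Measure (P1B K)) [IsProbabilityMeasure μ],
        ∫ x, v x ∂μ = c₀ + ∑ p ∈ F, c p * μ.real (ball p.1 p.2) := by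
      intro μ _
      have e : v = fun x => c₀ + ∑ p ∈ F, if x ∈ ball p.1 p.2 then c p else 0 := funext hc
      rw [e, integral_add (integrable_const c₀) (integrable_finsetSum _ fun p _ => hint1 μ p),
        integral_const, probReal_univ, one_smul, integral_finsetSum _ fun p _ => hint1 μ p]
      congr 1
      refine Finset.sum_congr rfl fun p _ => ?_
      have : (fun x : P1B K => if x ∈ ball p.1 p.2 then c p else 0) =
          Set.indicator (ball p.1 p.2) (fun _ => c p) := by
        funext x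
        rw [Set.indicator_apply]
      rw [this, integral_indicator_const _ (hbm _ _), smul_eq_mul, mul_comm]
    have hφI : ∀ (μ : Measure (P1B K)) [IsProbabilityMeasure μ], Integrable (fun x => φ x) μ := by
      intro μ _
      refine Integrable.mono' (integrable_const ‖φ‖) φ.continuous.aestronglyMeasurable ?_
      exact ae_of_all _ fun x => φ.norm_coe_le_norm x
    have hd : ∀ (μ : Measure (P1B K)) [IsProbabilityMeasure μ],
        |∫ x, φ x ∂μ - ∫ x, v x ∂μ| ≤ ε := by
      intro μ _
      rw [← integral_sub (hφI μ) (hvI μ)]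
      have h1 := norm_integral_le_of_norm_le_const (μ := μ) (f := fun x => φ x - v x) (C := ε)
        (ae_of_all _ fun x => by rw [Real.norm_eq_abs]; exact hclose x)
      rw [probReal_univ, mul_one] at h1
      exact h1
    have hvv : ∫ x, v x ∂ρ = ∫ x, v x ∂ρ' := by
      rw [hvint ρ, hvint ρ']
      congr 1
      exact Finset.sum_congr rfl fun p hp => by rw [hball _ _ (fpos p hp)]
    have h1 := hd ρ
    have h2 := hd ρ'
    rw [hvv] at h1
    rw [abs_le] at h1 h2 ⊢
    constructor <;> linarith [h1.1, h1.2, h2.1, h2.2]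
  by_contra hne
  have hpos : 0 < |∫ x, φ x ∂ρ - ∫ x, φ x ∂ρ'| := abs_pos.2 (sub_ne_zero.2 hne)
  have := key (|∫ x, φ x ∂ρ - ∫ x, φ x ∂ρ'| / 4) (by positivity)
  linarith

end

end Pool.Agent.W348.BE
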