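import Pool.Agent.W174.BK.Ker
import Pool.Agent.W851.BE.Stm
import Pool.Agent.W348.BE.Riesz
import Pool.Agent.W348.BE.Uniq

/-!
# Existence of the equilibrium measure
-/

set_option autoImplicit false
open Polynomial Topology Filter MeasureTheory
open scoped ENNReal

namespace Pool.Agent.W348.BE

open Pool.Agent.W95.BK Pool.Agent.W174.BK.Ker

universe u

section push
variable {K : Type u} [NontriviallyNormedField K] [IsUltrametricDist K] [IsAlgClosed K]

theorem pf_add (hD : S_DENSE.{u}) (hT : S_T1.{u}) (f : RMap K) (x : BA K) (hx : HK x)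
    (φ ψ : C(P1B K, ℝ)) : pushFun f (⇑(φ + ψ)) (x : P1B K) =
      pushFun f φ (x : P1B K) + pushFun f ψ (x : P1B K) := by
  have := hD K (x : P1B K)
  refine tendsto_nhds_unique (hT K f x hx (φ + ψ)) (((hT K f x hx φ).add (hT K f x hx ψ)).congr
    fun b => ?_)
  rw [← Multiset.sum_map_add]
  rfl

theorem pf_smul (hD : S_DENSE.{u}) (hT : S_T1.{u}) (f : RMap K) (x : BA K) (hx : HK x)
    (c : ℝ) (φ : C(P1B K, ℝ)) : pushFun f (⇑(c • φ)) (x : P1B K) =
      c * pushFun f φ (x : P1B K) := by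
  have := hD K (x : P1B K)
  refine tendsto_nhds_unique (hT K f x hx (c • φ)) (((hT K f x hx φ).const_mul c).congr
    fun b => ?_)
  rw [← Multiset.sum_map_mul_left]
  rfl

theorem pf_nonneg (hD : S_DENSE.{u}) (hT : S_T1.{u}) (f : RMap K) (x : BA K) (hx : HK x)
    (φ : C(P1B K, ℝ)) (hφ : ∀ z, 0 ≤ φ z) : 0 ≤ pushFun f φ (x : P1B K) := by
  have := hD K (x : P1B K)
  refine ge_of_tendsto (hT K f x hx φ) (Eventually.of_forall fun b => ?_)
  refine Multiset.sum_nonneg fun y hy => ?_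
  obtain ⟨z, _, rfl⟩ := Multiset.mem_map.1 hy
  exact hφ z

theorem pf_one (hD : S_DENSE.{u}) (hT : S_T1.{u}) (hA : S_ACT.{u}) (f : RMap K) (x : BA K)
    (hx : HK x) : pushFun f (⇑(1 : C(P1B K, ℝ))) (x : P1B K) = f.d := by
  have := hD K (x : P1B K)
  refine tendsto_nhds_unique (hT K f x hx 1) (tendsto_const_nhds.congr fun b => ?_)
  have h1 := (hA K f).2.2.2.2 b
  have h2 : (fib f b).map (⇑(1 : C(P1B K, ℝ))) = Multiset.replicate (fib f b).card (1 : ℝ) := by
    rw [Multiset.eq_replicate]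
    refine ⟨by simp, fun y hy => ?_⟩
    obtain ⟨z, _, rfl⟩ := Multiset.mem_map.1 hy
    rfl
  rw [h2, Multiset.sum_replicate, h1]
  simp

/-- for `x` of positive diameter, `λ_y(b)` is comparable to `max 1 |X|_y` for `b` close to `x` -/
theorem lam_near (hEV : S_EV.{u}) (hI : S_ISO.{u}) (x : BA K) (δ : ℝ) (hδ : 0 < δ)
    (hx : ∀ a : K, δ ≤ lam x a) (y : BA K) : ∀ᶠ b in toward (x : P1B K), 0 < lam y b ∧
      |Real.log (lam y b) - Real.log (max 1 (y X))| ≤
        |Real.log (δ / 2)| + 2 * Real.log (1 + x X) := by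
  have hX0 : 0 ≤ x X := x.nonneg' _
  have hX1 : 0 < x X := by
    have := hx 0
    rw [lam_zero] at this
    linarith
  have hL : 0 < Real.log (1 + x X) := Real.log_pos (by linarith)
  have h1 : ∀ᶠ b in toward (x : P1B K), ‖b‖ < 1 + x X := by
    have := tendsto_cl hEV x X
    simp only [eval_X] at this
    exact this.eventually (gt_mem_nhds (by linarith))
  have h2 : ∀ᶠ b in toward (x : P1B K), δ / 2 ≤ lam y b := by
    by_cases h : ∃ b₁ : K, lam y b₁ < δ / 2
    · obtain ⟨b₁, hb₁⟩ := h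
      have h3 := tendsto_cl hEV x (X - C b₁)
      have h4 : ∀ᶠ b in toward (x : P1B K), δ / 2 < ‖eval b (X - C b₁)‖ := by
        refine h3.eventually (lt_mem_nhds ?_)
        have := hx b₁
        unfold lam at this
        linarith
      filter_upwards [h4] with b hb
      rw [eval_sub, eval_X, eval_C] at hb
      rw [(hI K y b b₁).2.2.1 (hb₁.trans hb)]
      exact hb.le
    · push Not at h
      exact Eventually.of_forall fun b => h b
  filter_upwards [h1, h2] with b hb1 hb2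
  have hpos : 0 < lam y b := by linarith
  refine ⟨hpos, ?_⟩
  by_cases hy : y X ≤ 1 + x X
  · have hup : lam y b ≤ 1 + x X := by
      have h3 := (hI K y b 0).1
      rw [sub_zero, lam_zero] at h3
      exact h3.trans (max_le hy hb1.le)
    have e1 : Real.log (δ / 2) ≤ Real.log (lam y b) := Real.log_le_log (by positivity) hb2
    have e2 : Real.log (lam y b) ≤ Real.log (1 + x X) := Real.log_le_log hpos hup
    have e3 : 0 ≤ Real.log (max 1 (y X)) := Real.log_nonneg (le_max_left _ _)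
    have e4 : Real.log (max 1 (y X)) ≤ Real.log (1 + x X) :=
      Real.log_le_log (lt_max_of_lt_left one_pos) (max_le (by linarith) hy)
    have e5 := neg_abs_le (Real.log (δ / 2))
    have e6 := abs_nonneg (Real.log (δ / 2))
    rw [abs_le]
    constructor <;> linarith
  · push Not at hy
    have h3 := (hI K y b 0).2.2.2
    rw [sub_zero, lam_zero] at h3
    rw [h3 (hb1.trans hy), max_eq_right (by linarith), sub_self, abs_zero]
    have e6 := abs_nonneg (Real.log (δ / 2))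
    linarith

/-- Gauss norms of `P - bQ` for `b` close to `x` -/
theorem gn_near (hEV : S_EV.{u}) (hI : S_ISO.{u}) (hG : S_GLAM.{u}) (hA : S_ACT.{u})
    (x : BA K) (δ : ℝ) (hδ : 0 < δ) (hx : ∀ a : K, δ ≤ lam x a) (f : RMap K) (a : K) (t : ℝ)
    (ht : 0 < t) : ∀ᶠ b in toward (x : P1B K),
      |Real.log (gn a t (f.P - C b * f.Q)) - Real.log (max (gn a t f.P) (gn a t f.Q))| ≤
        |Real.log (δ / 2)| + 2 * Real.log (1 + x X) := by
  obtain ⟨y, -, hy, -, hl⟩ := (hA K f).1 (gauss a t ht) (hk_gauss hG a t ht)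
  have hQ : gn a t f.Q ≠ 0 := by
    intro h0
    have h1 : f.act ((gauss a t ht : BA K) : P1B K) = OnePoint.infty := by
      have h2 : ¬ (gauss a t ht f.Q ≠ 0) := by
        rw [not_not]
        exact h0
      show (if h : gauss a t ht f.Q ≠ 0 then ((push f (gauss a t ht) h : BA K) : P1B K)
        else OnePoint.infty) = OnePoint.infty
      rw [dif_neg h2]
    rw [h1] at hy
    exact OnePoint.infty_ne_coe y hy
  have hQ' : 0 < gn a t f.Q := lt_of_le_of_ne ((gauss a t ht).nonneg' f.Q) (Ne.symm hQ)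
  have hl' : ∀ b : K, gn a t (f.P - C b * f.Q) = lam y b * gn a t f.Q := by
    intro b
    have h1 : lam y b = gn a t (f.P - C b * f.Q) / gn a t f.Q := hl b
    rw [h1, div_mul_cancel₀ _ hQ]
  have hX : y X = gn a t f.P / gn a t f.Q := by
    have h1 := hl' 0
    rw [lam_zero, C_0, zero_mul, sub_zero] at h1
    rw [h1, mul_div_cancel_right₀ _ hQ]
  have hmax : max (gn a t f.P) (gn a t f.Q) = max 1 (y X) * gn a t f.Q := by
    rw [max_mul_of_nonneg _ _ hQ'.le, hX, one_mul, div_mul_cancel₀ _ hQ, max_comm]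
  filter_upwards [lam_near hEV hI x δ hδ hx y] with b hb
  rw [hl' b, hmax, Real.log_mul hb.1.ne' hQ,
    Real.log_mul (lt_max_of_lt_left one_pos).ne' hQ]
  have e : Real.log (lam y b) + Real.log (gn a t f.Q) -
      (Real.log (max 1 (y X)) + Real.log (gn a t f.Q)) =
      Real.log (lam y b) - Real.log (max 1 (y X)) := by ring
  rw [e]
  exact hb.2

theorem klim (hEV : S_EV.{u}) (hI : S_ISO.{u}) (hG : S_GLAM.{u}) (hA : S_ACT.{u})
    (hD : S_DENSE.{u}) (hT : S_T1.{u}) (hS : S_SUMK.{u}) (hC : S_KERC.{u}) (hGr : S_GREEN.{u})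
    (R : RMap K) (hd : 2 ≤ R.d) (x : BA K) (hHK : HK x) (δ : ℝ) (hδ : 0 < δ)
    (hx : ∀ a : K, δ ≤ lam x a) (a : K) (s t : ℝ) (hs : 0 < s) (ht : 0 < t) :
    Tendsto (fun n : ℕ => pushFun (R.iter n) (Pool.Agent.W95.BK.ker a s t)
      (x : P1B K) / (R.d : ℝ) ^ n) atTop (𝓝 (gr R (gauss a t ht) - gr R (gauss a s hs))) := by
  obtain ⟨B, hB, hgr⟩ := hGr K R hd
  have hd1 : (1 : ℝ) < R.d := by exact_mod_cast (by omega : 1 < R.d)
  have hd0 : (0 : ℝ) < R.d := by linarith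
  set C₀ : ℝ := |Real.log (δ / 2)| + 2 * Real.log (1 + x X) with hC₀
  have E2 : ∀ n : ℕ, |pushFun (R.iter n) (Pool.Agent.W95.BK.ker a s t) (x : P1B K) -
      (Real.log (max (gn a t (R.iter n).P) (gn a t (R.iter n).Q)) -
      Real.log (max (gn a s (R.iter n).P) (gn a s (R.iter n).Q)))| ≤ 2 * C₀ := by
    intro n
    have T1 := hT K (R.iter n) x hHK ⟨Pool.Agent.W95.BK.ker a s t, hC K a s t hs ht⟩
    have := hD K (x : P1B K)
    have T2 := (T1.sub_const (Real.log (max (gn a t (R.iter n).P) (gn a t (R.iter n).Q)) -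
      Real.log (max (gn a s (R.iter n).P) (gn a s (R.iter n).Q)))).abs
    refine le_of_tendsto T2 ?_
    filter_upwards [gn_near hEV hI hG hA x δ hδ hx (R.iter n) a t ht,
      gn_near hEV hI hG hA x δ hδ hx (R.iter n) a s hs] with b hb1 hb2
    have e := hS K (R.iter n) b a s t hs ht
    change |((fib (R.iter n) b).map (Pool.Agent.W95.BK.ker a s t)).sum - _| ≤ _
    rw [e]
    rw [abs_le] at hb1 hb2 ⊢
    constructor <;> linarith [hb1.1, hb1.2, hb2.1, hb2.2]
  have h2 : Tendsto (fun n : ℕ => (2 * C₀ + 2 * B) / (R.d : ℝ) ^ n) atTop (𝓝 0) := by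
    have := (tendsto_pow_atTop_nhds_zero_of_lt_one (r := ((R.d : ℝ))⁻¹) (by positivity)
      (inv_lt_one_of_one_lt₀ hd1)).const_mul (2 * C₀ + 2 * B)
    rw [mul_zero] at this
    refine this.congr fun n => ?_
    rw [inv_pow, div_eq_mul_inv]
  rw [tendsto_iff_norm_sub_tendsto_zero]
  refine squeeze_zero (fun n => norm_nonneg _) (fun n => ?_) h2
  rw [Real.norm_eq_abs]
  have hdn : (0 : ℝ) < (R.d : ℝ) ^ n := by positivity
  have g1 := ((hgr (gauss a t ht)).2 n).2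
  have g2 := ((hgr (gauss a s hs)).2 n).2
  set Dt := Real.log (max (gn a t (R.iter n).P) (gn a t (R.iter n).Q)) with hDt
  set Ds := Real.log (max (gn a s (R.iter n).P) (gn a s (R.iter n).Q)) with hDs
  have g1' : |Dt / (R.d : ℝ) ^ n - gr R (gauss a t ht)| ≤ B / (R.d : ℝ) ^ n := g1
  have g2' : |Ds / (R.d : ℝ) ^ n - gr R (gauss a s hs)| ≤ B / (R.d : ℝ) ^ n := g2
  set Pn := pushFun (R.iter n) (Pool.Agent.W95.BK.ker a s t) (x : P1B K) with hPn
  have g3 : |(Pn - (Dt - Ds)) / (R.d : ℝ) ^ n| ≤ 2 * C₀ / (R.d : ℝ) ^ n := by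
    rw [abs_div, abs_of_pos hdn]
    exact div_le_div_of_nonneg_right (E2 n) hdn.le
  have e : Pn / (R.d : ℝ) ^ n - (gr R (gauss a t ht) - gr R (gauss a s hs)) =
      (Pn - (Dt - Ds)) / (R.d : ℝ) ^ n + (Dt / (R.d : ℝ) ^ n - gr R (gauss a t ht)) -
        (Ds / (R.d : ℝ) ^ n - gr R (gauss a s hs)) := by ring
  have e2 : (2 * C₀ + 2 * B) / (R.d : ℝ) ^ n = 2 * C₀ / (R.d : ℝ) ^ n + B / (R.d : ℝ) ^ n +
      B / (R.d : ℝ) ^ n := by ring
  rw [e, e2]
  rw [abs_le] at g1' g2' g3 ⊢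
  constructor <;> linarith [g1'.1, g1'.2, g2'.1, g2'.2, g3.1, g3.2]

/-- Convergence of the pull-backs of points of positive diameter. -/
theorem exist_gen (hEV : S_EV.{u}) (hI : S_ISO.{u}) (hG : S_GLAM.{u}) (hT2 : S_T2.{u})
    (hNB : S_NB.{u}) (hD : S_DENSE.{u}) (hC : S_KERC.{u}) (hA : S_ACT.{u}) (hIt : S_ITER.{u})
    (hT : S_T1.{u}) (hS : S_SUMK.{u}) (hGr : S_GREEN.{u}) (hTL : S_TL.{u}) (hREP : S_REP.{u})
    (R : RMap K) (hd : 2 ≤ R.d) : ∃ ρ : Measure (P1B K), IsProbabilityMeasure ρ ∧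
      ∀ x : BA K, HK x → (∃ δ : ℝ, 0 < δ ∧ ∀ a : K, δ ≤ lam x a) → ∀ φ : C(P1B K, ℝ),
        Tendsto (fun n => pushFun (R.iter n) φ (x : P1B K) / (R.d : ℝ) ^ n) atTop
          (𝓝 (∫ z, φ z ∂ρ)) := by
  have hd1 : (1 : ℝ) < R.d := by exact_mod_cast (by omega : 1 < R.d)
  have hd0 : (0 : ℝ) < R.d := by linarith
  obtain ⟨-, -, hT2', -⟩ := hT2 K
  -- limits along ultrafilters
  have hU : ∀ x : BA K, HK x → ∀ g : Ultrafilter ℕ, ∃ ρ : Measure (P1B K),
      IsProbabilityMeasure ρ ∧ ∀ φ : C(P1B K, ℝ),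
      Tendsto (fun n => pushFun (R.iter n) φ (x : P1B K) / (R.d : ℝ) ^ n) g
        (𝓝 (∫ z, φ z ∂ρ)) := by
    intro x hx g
    refine ulim_measure g (fun n φ => pushFun (R.iter n) φ (x : P1B K) / (R.d : ℝ) ^ n) ?_ ?_ ?_ ?_
    · intro n f h
      rw [pf_add hD hT _ x hx, add_div]
    · intro n c f
      rw [pf_smul hD hT _ x hx, mul_div_assoc]
    · intro n f hf
      exact div_nonneg (pf_nonneg hD hT _ x hx f hf) (by positivity)
    · intro n
      rw [pf_one hD hT hA _ x hx, (hIt K R).1 n]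
      push_cast
      exact div_self (by positivity)
  set x₀ : BA K := gauss 0 1 one_pos with hx₀
  have hx₀H : HK x₀ := hk_gauss hG 0 1 one_pos
  have hx₀δ : ∀ a : K, (1 : ℝ) ≤ lam x₀ a := by
    intro a
    rw [hx₀, gauss_lam hG]
    exact le_max_right _ _
  obtain ⟨ρ, hρ, hρlim⟩ := hU x₀ hx₀H (Filter.hyperfilter ℕ)
  refine ⟨ρ, hρ, fun x hx hδ φ => ?_⟩
  obtain ⟨δ, hδ0, hδ⟩ := hδ
  rw [tendsto_iff_ultrafilter]
  intro g hg
  obtain ⟨ρ', hρ', hρ'lim⟩ := hU x hx g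
  have hker : ∀ (a : K) (s t : ℝ), 0 < s → 0 < t →
      ∫ x, Pool.Agent.W95.BK.ker a s t x ∂ρ = ∫ x, Pool.Agent.W95.BK.ker a s t x ∂ρ' := by
    intro a s t hs ht
    have l1 := klim hEV hI hG hA hD hT hS hC hGr R hd x₀ hx₀H 1 one_pos hx₀δ a s t hs ht
    have l2 := klim hEV hI hG hA hD hT hS hC hGr R hd x hx δ hδ0 hδ a s t hs ht
    have l1' := l1.mono_left (f := fun n : ℕ => _) (Nat.hyperfilter_le_atTop)
    have l2' := l2.mono_left hg
    have m1 := hρlim ⟨Pool.Agent.W95.BK.ker a s t, hC K a s t hs ht⟩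
    have m2 := hρ'lim ⟨Pool.Agent.W95.BK.ker a s t, hC K a s t hs ht⟩
    exact (tendsto_nhds_unique m1 l1').trans (tendsto_nhds_unique m2 l2').symm
  rw [uniq hC hNB hTL hREP ρ ρ' hker φ]
  exact hρ'lim φ

/-- for a complete field all points of types II, III, IV have positive diameter -/
theorem diam_pos [CompleteSpace K] (hI : S_ISO.{u}) (hV : S_VAL.{u}) (hG : S_GLAM.{u})
    (x : BA K) (hx : HK x) : ∃ δ : ℝ, 0 < δ ∧ ∀ a : K, δ ≤ lam x a := by
  by_contra hcon
  push Not at hcon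
  have hn : ∀ n : ℕ, ∃ a : K, lam x a < 1 / ((n : ℝ) + 1) := fun n => hcon _ (by positivity)
  choose u hu using hn
  have hlim : Tendsto (fun n : ℕ => 1 / ((n : ℝ) + 1)) atTop (𝓝 0) :=
    tendsto_one_div_add_atTop_nhds_zero_nat
  have hnn : ∀ a : K, 0 ≤ lam x a := fun a => x.nonneg' _
  have hcau : CauchySeq u := by
    rw [Metric.cauchySeq_iff']
    intro ε hε
    obtain ⟨N, hN⟩ := (hlim.eventually (gt_mem_nhds hε)).exists
    refine ⟨N, fun n hn => ?_⟩
    rw [dist_eq_norm]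
    refine lt_of_le_of_lt (hI K x (u n) (u N)).2.1 (max_lt ?_ ((hu N).trans hN))
    refine (hu n).trans (lt_of_le_of_lt ?_ hN)
    have hn' : (N : ℝ) ≤ n := by exact_mod_cast hn
    gcongr
  obtain ⟨a, ha⟩ := cauchySeq_tendsto_of_complete hcau
  have h0 : lam x a = 0 := by
    refine le_antisymm ?_ (hnn a)
    have h1 : Tendsto (fun n : ℕ => max (1 / ((n : ℝ) + 1)) ‖a - u n‖) atTop (𝓝 (max 0 0)) := by
      refine hlim.max ?_
      have := (tendsto_const_nhds (x := a)).sub ha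
      simpa using this.norm
    rw [max_self] at h1
    refine ge_of_tendsto h1 (Eventually.of_forall fun n => ?_)
    exact (hI K x a (u n)).1.trans (max_le_max (hu n).le le_rfl)
  refine hx a (BA.ext fun h => ?_)
  rw [hV K x h, hV K (cl a) h]
  congr 3
  funext w
  rw [(hG K a w).1]
  by_cases hw : a = w
  · rw [← hw, h0, sub_self, norm_zero]
  · have h2 : 0 < ‖w - a‖ := norm_pos_iff.2 (sub_ne_zero.2 (Ne.symm hw))
    rw [(hI K x w a).2.2.1 (by rw [h0]; exact h2), norm_sub_rev]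

end push

/-- Existence of the equilibrium measure over complete fields. -/
def S_EXISTC : Prop := ∀ (K : Type u) [NontriviallyNormedField K] [IsUltrametricDist K]
  [IsAlgClosed K] [CompleteSpace K] (R : RMap K), 2 ≤ R.d → ∃ ρ : Measure (P1B K),
  IsProbabilityMeasure ρ ∧ IsEquilibrium R ρ

theorem existc (hV : S_VAL.{u}) (hEV : S_EV.{u}) (hI : S_ISO.{u}) (hG : S_GLAM.{u})
    (hT2 : S_T2.{u}) (hNB : S_NB.{u}) (hD : S_DENSE.{u}) (hC : S_KERC.{u}) (hA : S_ACT.{u})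
    (hIt : S_ITER.{u}) (hT : S_T1.{u}) (hS : S_SUMK.{u}) (hGr : S_GREEN.{u}) (hTL : S_TL.{u})
    (hREP : S_REP.{u}) : S_EXISTC.{u} := by
  intro K _ _ _ _ R hd
  obtain ⟨ρ, hρ, h⟩ := exist_gen hEV hI hG hT2 hNB hD hC hA hIt hT hS hGr hTL hREP R hd
  exact ⟨ρ, hρ, fun x hx φ => h x hx (diam_pos hI hV hG x hx) φ⟩

end Pool.Agent.W348.BE
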